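import Mathlib

set_option autoImplicit false

/-!
# An element of `𝒢(D)` which every flame misses in many edges at some vertex

`J` is an arbitrary infinite type and `Λ` an arbitrary type. Vertices: `r`; resources `x j`;
`y' k → y k` with `x j → y' k` for all `j, k`; `z' j → z j` with `x j → z' j` only; vertices `v t`
(`t ∈ Λ`) with in-neighbours all `y k` and all `z j`; and, for every `t` and every set `S ⊆ J`
whose complement has the cardinality of `J`, vertices `v t → u t S i` (`i ∈ J`) and a vertex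
`w t S` with in-neighbours all `y k`, the `z j` with `j ∈ S`, and all `u t S i`.
-/

open Cardinal

namespace Pool.Agent.Results.MP_6e5fe0_co.FarFromFlames

universe u v

/-- Rooted digraphs with vertex set `V` and edge set `E` (parallel edges are allowed). -/
structure RootedDigraph (V : Type u) (E : Type v) where
  src : E → V
  tgt : E → V
  root : V
  loopless : ∀ e, src e ≠ tgt e
  no_in : ∀ e, tgt e ≠ root

variable {V : Type u} {E : Type v}

/-- The list `l` of edges is a directed walk from `x` to `y`. -/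
def IsWalk (D : RootedDigraph V E) : V → List E → V → Prop
  | x, [], y => x = y
  | x, e :: l, y => D.src e = x ∧ IsWalk D (D.tgt e) l y

/-- The edge set `P` is a (finite, directed) path from the root to `y`. -/
def IsRootPath (D : RootedDigraph V E) (y : V) (P : Set E) : Prop :=
  ∃ l : List E, IsWalk D D.root l y ∧ (D.root :: l.map D.tgt).Nodup ∧ P = {e | e ∈ l}

/-- `I ∈ 𝒢_{D(F)}(y)`, where `D(F)` is the subdigraph with edge set `F`: `I` consists of edges
entering `y` and is covered by pairwise edge-disjoint paths of `D(F)` from the root to `y`. -/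
def IsLinkable (D : RootedDigraph V E) (F : Set E) (y : V) (I : Set E) : Prop :=
  (∀ e ∈ I, D.tgt e = y) ∧ ∃ P : Set (Set E), (∀ p ∈ P, IsRootPath D y p ∧ p ⊆ F) ∧
    P.PairwiseDisjoint id ∧ I ⊆ ⋃₀ P

/-- `I ∈ 𝒢(D(F))`. -/
def IsInG (D : RootedDigraph V E) (F : Set E) (I : Set E) : Prop :=
  ∃ J : V → Set E, (∀ y, y ≠ D.root → IsLinkable D F y (J y)) ∧
    I = ⋃ y ∈ {y : V | y ≠ D.root}, J y

/-- `F` is a flame of `D`: `F ∈ 𝒢(D(F))`. -/
def IsFlame (D : RootedDigraph V E) (F : Set E) : Prop := IsInG D F F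

/-- No closed directed walk with at least one edge. -/
def IsAcyclic (D : RootedDigraph V E) : Prop := ∀ x l, l ≠ [] → ¬ IsWalk D x l x

/-- No backward-infinite directed walk `… → · → ·` (in particular no backward-infinite path). -/
def NoBackwardInfinite (D : RootedDigraph V E) : Prop :=
  ¬ ∃ e : ℕ → E, ∀ n, D.tgt (e (n + 1)) = D.src (e n)

/-- The subsets of `J` whose complement has the cardinality of `J`. -/
abbrev Co (J : Type u) : Type u := {S : Set J // #J ≤ #↥Sᶜ}

/-- The vertices of the example. -/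
inductive Vx (J Λ : Type u) : Type u
  | r : Vx J Λ
  | x (j : J) : Vx J Λ
  | y' (k : J) : Vx J Λ
  | z' (j : J) : Vx J Λ
  | y (k : J) : Vx J Λ
  | z (j : J) : Vx J Λ
  | v (t : Λ) : Vx J Λ
  | u (t : Λ) (S : Co J) (i : J) : Vx J Λ
  | w (t : Λ) (S : Co J) : Vx J Λ

/-- The edges of the example. -/
inductive Ed (J Λ : Type u) : Type u
  | rx (j : J) : Ed J Λ
  | xy (j k : J) : Ed J Λ
  | xz (j : J) : Ed J Λ
  | yy (k : J) : Ed J Λ
  | zz (j : J) : Ed J Λ
  | yv (k : J) (t : Λ) : Ed J Λ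
  | zv (j : J) (t : Λ) : Ed J Λ
  | yw (k : J) (t : Λ) (S : Co J) : Ed J Λ
  | zw (t : Λ) (S : Co J) (j : S.1) : Ed J Λ
  | vu (t : Λ) (S : Co J) (i : J) : Ed J Λ
  | uw (t : Λ) (S : Co J) (i : J) : Ed J Λ

variable {J Λ : Type u}

/-- tails of the edges -/
def Ed.src : Ed J Λ → Vx J Λ
  | .rx _ => .r
  | .xy j _ => .x j
  | .xz j => .x j
  | .yy k => .y' k
  | .zz j => .z' j
  | .yv k _ => .y k
  | .zv j _ => .z j
  | .yw k _ _ => .y k
  | .zw _ _ j => .z j
  | .vu t _ _ => .v t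
  | .uw t S i => .u t S i

/-- heads of the edges -/
def Ed.tgt : Ed J Λ → Vx J Λ
  | .rx j => .x j
  | .xy _ k => .y' k
  | .xz j => .z' j
  | .yy k => .y k
  | .zz j => .z j
  | .yv _ t => .v t
  | .zv _ t => .v t
  | .yw _ t S => .w t S
  | .zw t S _ => .w t S
  | .vu t S i => .u t S i
  | .uw t S _ => .w t S

/-- the level of a vertex -/
def Vx.rank : Vx J Λ → ℕ
  | .r => 0
  | .x _ => 1
  | .y' _ => 2
  | .z' _ => 2
  | .y _ => 3
  | .z _ => 3
  | .v _ => 4
  | .u _ _ _ => 5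
  | .w _ _ => 6

theorem rank_lt (e : Ed J Λ) : e.src.rank < e.tgt.rank := by
  cases e <;> simp [Ed.src, Ed.tgt, Vx.rank]

theorem rank_le (x : Vx J Λ) : x.rank ≤ 6 := by
  cases x <;> simp [Vx.rank]

variable (J Λ) in
/-- The example. -/
def D₀ : RootedDigraph (Vx J Λ) (Ed J Λ) where
  src := Ed.src
  tgt := Ed.tgt
  root := .r
  loopless := fun e h => by
    have := rank_lt e
    rw [h] at this
    exact lt_irrefl _ this
  no_in := fun e h => by
    have := rank_lt e
    rw [h] at this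
    exact absurd this (Nat.not_lt_zero _)

theorem walk_rank (l : List (Ed J Λ)) :
    ∀ x y, IsWalk (D₀ J Λ) x l y → x.rank + l.length ≤ y.rank := by
  induction l with
  | nil => rintro x y rfl; simp
  | cons e l ih =>
    rintro x y ⟨rfl, h⟩
    have h1 := ih _ _ h
    have h2 := rank_lt e
    change e.tgt.rank + l.length ≤ y.rank at h1
    show e.src.rank + (e :: l).length ≤ y.rank
    rw [List.length_cons]
    omega

theorem walk_length (x : Vx J Λ) (l : List (Ed J Λ)) (y : Vx J Λ) (h : IsWalk (D₀ J Λ) x l y) :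
    l.length ≤ 6 := by
  have h1 := walk_rank l x y h
  have h2 := rank_le y
  omega

theorem D₀_acyclic : IsAcyclic (D₀ J Λ) := by
  intro x l hl h
  have h1 := walk_rank l x x h
  have h2 : 0 < l.length := List.length_pos_iff.2 hl
  omega

theorem D₀_noBackward : NoBackwardInfinite (D₀ J Λ) := by
  rintro ⟨e, he⟩
  have h : ∀ n, (e n).src.rank + n ≤ (e 0).src.rank := by
    intro n
    induction n with
    | zero => simp
    | succ n ih =>
      have h1 := rank_lt (e (n + 1))
      have h2 : (e (n + 1)).tgt = (e n).src := he n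
      rw [h2] at h1
      omega
  have := h ((e 0).src.rank + 1)
  omega

/-- There are no parallel edges. -/
theorem D₀_simple (e e' : Ed J Λ) (h : (D₀ J Λ).src e = (D₀ J Λ).src e')
    (h' : (D₀ J Λ).tgt e = (D₀ J Λ).tgt e') : e = e' := by
  change e.src = e'.src at h
  change e.tgt = e'.tgt at h'
  cases e <;> cases e' <;> simp only [Ed.src, Ed.tgt, Vx.x.injEq, Vx.y.injEq, Vx.z.injEq,
    Vx.y'.injEq, Vx.z'.injEq, Vx.v.injEq, Vx.u.injEq, Vx.w.injEq, reduceCtorEq] at h h'
  all_goals first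
    | (subst h; rfl)
    | (subst h'; rfl)
    | (subst h; subst h'; rfl)
    | (obtain ⟨rfl, rfl⟩ := h; rfl)
    | (obtain ⟨rfl, rfl⟩ := h'; rfl)
    | (obtain ⟨rfl, rfl, rfl⟩ := h; rfl)
    | (obtain ⟨rfl, rfl, rfl⟩ := h'; rfl)
    | (subst h; obtain ⟨rfl, rfl⟩ := h'; rfl)
    | (obtain ⟨rfl, rfl⟩ := h'; obtain rfl := Subtype.ext h; rfl)

/-- A code of the edges which is injective on the edges entering a given vertex. -/
def code : Ed J Λ → J ⊕ J ⊕ J
  | .rx j => .inl j
  | .xy j _ => .inl j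
  | .xz j => .inl j
  | .yy k => .inl k
  | .zz j => .inl j
  | .yv k _ => .inl k
  | .zv j _ => .inr (.inl j)
  | .yw k _ _ => .inl k
  | .zw _ _ j => .inr (.inl j.1)
  | .vu _ _ i => .inl i
  | .uw _ _ i => .inr (.inr i)

theorem code_inj (e e' : Ed J Λ) (h : code e = code e') (h' : e.tgt = e'.tgt) : e = e' := by
  cases e <;> cases e' <;> simp only [code, Ed.tgt, Vx.x.injEq, Vx.y.injEq, Vx.z.injEq,
    Vx.y'.injEq, Vx.z'.injEq, Vx.v.injEq, Vx.u.injEq, Vx.w.injEq, Sum.inl.injEq, Sum.inr.injEq,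
    reduceCtorEq] at h h'
  all_goals first
    | (subst h; rfl)
    | (subst h'; rfl)
    | (subst h; subst h'; rfl)
    | (subst h; obtain ⟨rfl, rfl⟩ := h'; rfl)
    | (obtain ⟨rfl, rfl, rfl⟩ := h'; rfl)
    | (obtain ⟨rfl, rfl⟩ := h'; obtain rfl := Subtype.ext h; rfl)

/-- All in-degrees are at most `κ`. -/
theorem indegree [Infinite J] (y : Vx J Λ) : #{e : Ed J Λ // (D₀ J Λ).tgt e = y} ≤ #J := by
  have h1 : #(J ⊕ J ⊕ J) = #J := by
    simp only [Cardinal.mk_sum, Cardinal.lift_id,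
      Cardinal.add_eq_self (Cardinal.aleph0_le_mk J)]
  rw [← h1]
  refine Cardinal.mk_le_of_injective
    (f := fun e : {e : Ed J Λ // (D₀ J Λ).tgt e = y} => code e.1) ?_
  intro e e' h
  exact Subtype.ext (code_inj _ _ h (e.2.trans e'.2.symm))

theorem walk_to_v {t : Λ} {l : List (Ed J Λ)} (h : IsWalk (D₀ J Λ) .r l (.v t)) :
    (∃ j k, l = [.rx j, .xy j k, .yy k, .yv k t]) ∨
      ∃ j, l = [.rx j, .xz j, .zz j, .zv j t] := by
  have hw : ∀ (t' : Λ) (S : Co J) (l : List (Ed J Λ)),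
      ¬ IsWalk (D₀ J Λ) (.w t' S) l (.v t) := by
    intro t' S l h
    have := walk_rank l _ _ h
    simp only [Vx.rank] at this
    omega
  have hv : ∀ (t' : Λ) (l : List (Ed J Λ)), IsWalk (D₀ J Λ) (.v t') l (.v t) →
      l = [] ∧ t' = t := by
    intro t' l h
    have h1 := walk_rank l _ _ h
    have h2 : l = [] := List.length_eq_zero_iff.1 (by simp only [Vx.rank] at h1; omega)
    subst h2
    refine ⟨rfl, ?_⟩
    have h3 : Vx.v t' = Vx.v t := h
    injection h3
  have hy : ∀ k (l : List (Ed J Λ)), IsWalk (D₀ J Λ) (.y k) l (.v t) → l = [.yv k t] := by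
    intro k l h
    rcases l with - | ⟨e, l⟩
    · exact absurd h (by simp [IsWalk])
    · obtain ⟨h1, h2⟩ := h
      cases e with
      | yv k' t' =>
        have : k' = k := by injection h1
        obtain ⟨h3, h4⟩ := hv t' l h2
        rw [h3, h4, this]
      | yw k' t' S => exact absurd h2 (hw t' S l)
      | _ => exact absurd h1 (by simp [D₀, Ed.src])
  have hz : ∀ j (l : List (Ed J Λ)), IsWalk (D₀ J Λ) (.z j) l (.v t) → l = [.zv j t] := by
    intro k l h
    rcases l with - | ⟨e, l⟩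
    · exact absurd h (by simp [IsWalk])
    · obtain ⟨h1, h2⟩ := h
      cases e with
      | zv k' t' =>
        have : k' = k := by injection h1
        obtain ⟨h3, h4⟩ := hv t' l h2
        rw [h3, h4, this]
      | zw t' S j => exact absurd h2 (hw t' S l)
      | _ => exact absurd h1 (by simp [D₀, Ed.src])
  rcases l with - | ⟨e, l⟩
  · exact absurd h (by simp [IsWalk])
  obtain ⟨h1, h2⟩ := h
  cases e with
  | rx j =>
    rcases l with - | ⟨e, l⟩
    · exact absurd h2 (by simp [IsWalk, D₀, Ed.tgt])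
    obtain ⟨h3, h4⟩ := h2
    cases e with
    | xy j' k =>
      have hj : j' = j := by injection h3
      subst hj
      rcases l with - | ⟨e, l⟩
      · exact absurd h4 (by simp [IsWalk, D₀, Ed.tgt])
      obtain ⟨h5, h6⟩ := h4
      cases e with
      | yy k' =>
        have hk : k' = k := by injection h5
        subst hk
        have := hy k' l h6
        subst this
        exact Or.inl ⟨j', k', rfl⟩
      | _ => exact absurd h5 (by simp [D₀, Ed.src, Ed.tgt])
    | xz j' =>
      have hj : j' = j := by injection h3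
      subst hj
      rcases l with - | ⟨e, l⟩
      · exact absurd h4 (by simp [IsWalk, D₀, Ed.tgt])
      obtain ⟨h5, h6⟩ := h4
      cases e with
      | zz k' =>
        have hk : k' = j' := by injection h5
        subst hk
        have := hz k' l h6
        subst this
        exact Or.inr ⟨k', rfl⟩
      | _ => exact absurd h5 (by simp [D₀, Ed.src, Ed.tgt])
    | _ => exact absurd h3 (by simp [D₀, Ed.src, Ed.tgt])
  | _ => exact absurd h1 (by simp [D₀, Ed.src])

theorem walk_to_w {t : Λ} {S : Co J} {l : List (Ed J Λ)}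
    (h : IsWalk (D₀ J Λ) .r l (.w t S)) :
    (∃ j k, l = [.rx j, .xy j k, .yy k, .yw k t S]) ∨
    (∃ j : S.1, l = [.rx j.1, .xz j.1, .zz j.1, .zw t S j]) ∨
    (∃ j k i, l = [.rx j, .xy j k, .yy k, .yv k t, .vu t S i, .uw t S i]) ∨
    ∃ j i, l = [.rx j, .xz j, .zz j, .zv j t, .vu t S i, .uw t S i] := by
  have hw : ∀ (t' : Λ) (S' : Co J) (l : List (Ed J Λ)),
      IsWalk (D₀ J Λ) (.w t' S') l (.w t S) → l = [] ∧ t' = t ∧ S' = S := by
    intro t' S' l h
    have h1 := walk_rank l _ _ h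
    have h2 : l = [] := List.length_eq_zero_iff.1 (by simp only [Vx.rank] at h1; omega)
    subst h2
    refine ⟨rfl, ?_⟩
    have h3 : Vx.w t' S' = Vx.w t S := h
    simpa using h3
  have hu : ∀ (t' : Λ) (S' : Co J) (i : J) (l : List (Ed J Λ)),
      IsWalk (D₀ J Λ) (.u t' S' i) l (.w t S) → t' = t ∧ S' = S ∧ l = [.uw t S i] := by
    intro t' S' i l h
    rcases l with - | ⟨e, l⟩
    · exact absurd h (by simp [IsWalk])
    · obtain ⟨h1, h2⟩ := h
      cases e with
      | uw t'' S'' i' =>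
        obtain ⟨h3, h4, h7⟩ := hw t'' S'' l h2
        have h5 : t'' = t' ∧ S'' = S' ∧ i' = i := by
          have h6 : Vx.u t'' S'' i' = Vx.u t' S' i := h1
          simpa using h6
        obtain ⟨rfl, rfl, rfl⟩ := h5
        exact ⟨h4, h7, by rw [h3, h4, h7]⟩
      | _ => exact absurd h1 (by simp [D₀, Ed.src])
  have hv : ∀ (t' : Λ) (l : List (Ed J Λ)), IsWalk (D₀ J Λ) (.v t') l (.w t S) →
      t' = t ∧ ∃ i, l = [.vu t S i, .uw t S i] := by
    intro t' l h
    rcases l with - | ⟨e, l⟩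
    · exact absurd h (by simp [IsWalk])
    · obtain ⟨h1, h2⟩ := h
      cases e with
      | vu t'' S' i =>
        obtain ⟨h3, h4, h7⟩ := hu t'' S' i l h2
        have h5 : t'' = t' := by injection h1
        exact ⟨h5 ▸ h3, i, by rw [h3, h4, h7]⟩
      | _ => exact absurd h1 (by simp [D₀, Ed.src])
  have hy : ∀ k (l : List (Ed J Λ)), IsWalk (D₀ J Λ) (.y k) l (.w t S) →
      l = [.yw k t S] ∨ ∃ i, l = [.yv k t, .vu t S i, .uw t S i] := by
    intro k l h
    rcases l with - | ⟨e, l⟩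
    · exact absurd h (by simp [IsWalk])
    · obtain ⟨h1, h2⟩ := h
      cases e with
      | yv k' t' =>
        have : k' = k := by injection h1
        obtain ⟨ht, i, hi⟩ := hv t' l h2
        rw [hi, this, ht]
        exact Or.inr ⟨i, rfl⟩
      | yw k' t' S' =>
        have : k' = k := by injection h1
        obtain ⟨h3, h4, h7⟩ := hw t' S' l h2
        rw [h3, h4, h7, this]
        exact Or.inl rfl
      | _ => exact absurd h1 (by simp [D₀, Ed.src])
  have hz : ∀ j (l : List (Ed J Λ)), IsWalk (D₀ J Λ) (.z j) l (.w t S) →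
      (∃ j' : S.1, j'.1 = j ∧ l = [.zw t S j']) ∨
        ∃ i, l = [.zv j t, .vu t S i, .uw t S i] := by
    intro k l h
    rcases l with - | ⟨e, l⟩
    · exact absurd h (by simp [IsWalk])
    · obtain ⟨h1, h2⟩ := h
      cases e with
      | zv k' t' =>
        have : k' = k := by injection h1
        obtain ⟨ht, i, hi⟩ := hv t' l h2
        rw [hi, this, ht]
        exact Or.inr ⟨i, rfl⟩
      | zw t' S' j =>
        have : j.1 = k := by injection h1
        obtain ⟨h3, h4, h7⟩ := hw t' S' l h2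
        subst h4
        subst h7
        exact Or.inl ⟨j, this, by rw [h3]⟩
      | _ => exact absurd h1 (by simp [D₀, Ed.src])
  rcases l with - | ⟨e, l⟩
  · exact absurd h (by simp [IsWalk])
  obtain ⟨h1, h2⟩ := h
  cases e with
  | rx j =>
    rcases l with - | ⟨e, l⟩
    · exact absurd h2 (by simp [IsWalk, D₀, Ed.tgt])
    obtain ⟨h3, h4⟩ := h2
    cases e with
    | xy j' k =>
      have hj : j' = j := by injection h3
      subst hj
      rcases l with - | ⟨e, l⟩
      · exact absurd h4 (by simp [IsWalk, D₀, Ed.tgt])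
      obtain ⟨h5, h6⟩ := h4
      cases e with
      | yy k' =>
        have hk : k' = k := by injection h5
        subst hk
        rcases hy k' l h6 with h7 | ⟨i, h7⟩
        · subst h7
          exact Or.inl ⟨j', k', rfl⟩
        · subst h7
          exact Or.inr (Or.inr (Or.inl ⟨j', k', i, rfl⟩))
      | _ => exact absurd h5 (by simp [D₀, Ed.src, Ed.tgt])
    | xz j' =>
      have hj : j' = j := by injection h3
      subst hj
      rcases l with - | ⟨e, l⟩
      · exact absurd h4 (by simp [IsWalk, D₀, Ed.tgt])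
      obtain ⟨h5, h6⟩ := h4
      cases e with
      | zz k' =>
        have hk : k' = j' := by injection h5
        subst hk
        rcases hz k' l h6 with ⟨j, h7, h8⟩ | ⟨i, h7⟩
        · subst h7
          subst h8
          exact Or.inr (Or.inl ⟨j, rfl⟩)
        · subst h7
          exact Or.inr (Or.inr (Or.inr ⟨k', i, rfl⟩))
      | _ => exact absurd h5 (by simp [D₀, Ed.src, Ed.tgt])
    | _ => exact absurd h3 (by simp [D₀, Ed.src, Ed.tgt])
  | _ => exact absurd h1 (by simp [D₀, Ed.src])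

variable (J Λ) in
/-- The element of `𝒢(D₀)`: all the edges except the edges `z j → v t`. -/
def I₀ : Set (Ed J Λ) := {e | ∀ j t, e ≠ .zv j t}

/-- The part of `I₀` entering a given vertex. -/
def J₀ (y : Vx J Λ) : Set (Ed J Λ) := {e | e ∈ I₀ J Λ ∧ e.tgt = y}

theorem J₀_v (t : Λ) : J₀ (.v t : Vx J Λ) = Set.range fun k => Ed.yv k t := by
  ext e
  constructor
  · rintro ⟨h, he⟩
    cases e with
    | yv k t' =>
      have : t' = t := by injection he
      exact ⟨k, by rw [this]⟩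
    | zv j t' => exact absurd rfl (h j t')
    | _ => exact absurd he (by simp [Ed.tgt])
  · rintro ⟨k, rfl⟩
    exact ⟨fun j t => by simp, rfl⟩

theorem link_v (t : Λ) : IsLinkable (D₀ J Λ) Set.univ (.v t) (J₀ (.v t)) := by
  refine ⟨fun e he => he.2, Set.range fun k : J =>
    {e | e ∈ [Ed.rx k, .xy k k, .yy k, .yv k t]}, ?_, ?_, ?_⟩
  · rintro _ ⟨k, rfl⟩
    refine ⟨⟨[.rx k, .xy k k, .yy k, .yv k t], ?_, ?_, rfl⟩, Set.subset_univ _⟩
    · simp [IsWalk, D₀, Ed.src, Ed.tgt]
    · simp [D₀, Ed.tgt]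
  · rintro _ ⟨k, rfl⟩ _ ⟨l, rfl⟩ hkl
    have hne : k ≠ l := fun h => hkl (by rw [h])
    refine Set.disjoint_left.2 fun e he he' => ?_
    simp only [id, Set.mem_ofPred_eq, List.mem_cons, List.not_mem_nil, or_false] at he he'
    rcases he with rfl | rfl | rfl | rfl <;> simp_all
  · rw [J₀_v]
    rintro _ ⟨k, rfl⟩
    exact ⟨_, ⟨k, rfl⟩, by simp⟩

/-- paths to `w t S` through `y k` -/
def pA (t : Λ) (S : Co J) (j k : J) : Set (Ed J Λ) :=
  {e | e ∈ [Ed.rx j, .xy j k, .yy k, .yw k t S]}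

/-- paths to `w t S` through `z j` -/
def pB (t : Λ) (S : Co J) (j : S.1) : Set (Ed J Λ) :=
  {e | e ∈ [Ed.rx j.1, .xz j.1, .zz j.1, .zw t S j]}

/-- paths to `w t S` through `z j`, `v t` and `u t S i` -/
def pC (t : Λ) (S : Co J) (j i : J) : Set (Ed J Λ) :=
  {e | e ∈ [Ed.rx j, .xz j, .zz j, .zv j t, .vu t S i, .uw t S i]}

theorem mem_pA {t : Λ} {S : Co J} {j k : J} {e : Ed J Λ} :
    e ∈ pA t S j k ↔ e = .rx j ∨ e = .xy j k ∨ e = .yy k ∨ e = .yw k t S := by
  simp [pA]

theorem mem_pB {t : Λ} {S : Co J} {j : S.1} {e : Ed J Λ} :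
    e ∈ pB t S j ↔ e = .rx j.1 ∨ e = .xz j.1 ∨ e = .zz j.1 ∨ e = .zw t S j := by
  simp [pB]

theorem mem_pC {t : Λ} {S : Co J} {j i : J} {e : Ed J Λ} :
    e ∈ pC t S j i ↔
      e = .rx j ∨ e = .xz j ∨ e = .zz j ∨ e = .zv j t ∨ e = .vu t S i ∨ e = .uw t S i := by
  simp [pC]

theorem disj_AB (t : Λ) (S : Co J) (j k : J) (i : S.1) (h : j ≠ i.1) :
    Disjoint (pA t S j k) (pB t S i) := by
  refine Set.disjoint_left.2 fun e he he' => ?_
  rw [mem_pA] at he
  rw [mem_pB] at he'
  rcases he with rfl | rfl | rfl | rfl <;> simp at he'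
  exact h he'

theorem disj_AC (t : Λ) (S : Co J) (j k j' i : J) (h : j ≠ j') :
    Disjoint (pA t S j k) (pC t S j' i) := by
  refine Set.disjoint_left.2 fun e he he' => ?_
  rw [mem_pA] at he
  rw [mem_pC] at he'
  rcases he with rfl | rfl | rfl | rfl <;> simp at he'
  exact h he'

theorem disj_BC (t : Λ) (S : Co J) (j : S.1) (j' i : J) (h : j.1 ≠ j') :
    Disjoint (pB t S j) (pC t S j' i) := by
  refine Set.disjoint_left.2 fun e he he' => ?_
  rw [mem_pB] at he
  rw [mem_pC] at he'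
  rcases he with rfl | rfl | rfl | rfl <;> simp at he' <;> exact h he'

theorem disj_AA (t : Λ) (S : Co J) (j k j' k' : J) (h : j ≠ j') (h' : k ≠ k') :
    Disjoint (pA t S j k) (pA t S j' k') := by
  refine Set.disjoint_left.2 fun e he he' => ?_
  rw [mem_pA] at he
  rw [mem_pA] at he'
  rcases he with rfl | rfl | rfl | rfl <;> simp at he'
  · exact h he'
  · exact h he'.1
  · exact h' he'
  · exact h' he'

theorem disj_CC (t : Λ) (S : Co J) (j i j' i' : J) (h : j ≠ j') (h' : i ≠ i') :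
    Disjoint (pC t S j i) (pC t S j' i') := by
  refine Set.disjoint_left.2 fun e he he' => ?_
  rw [mem_pC] at he
  rw [mem_pC] at he'
  rcases he with rfl | rfl | rfl | rfl | rfl | rfl <;> simp at he'
  · exact h he'
  · exact h he'
  · exact h he'
  · exact h he'
  · exact h' he'
  · exact h' he'

theorem disj_BB (t : Λ) (S : Co J) (j j' : S.1) (h : j ≠ j') :
    Disjoint (pB t S j) (pB t S j') := by
  refine Set.disjoint_left.2 fun e he he' => ?_
  rw [mem_pB] at he
  rw [mem_pB] at he'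
  have h2 : j.1 ≠ j'.1 := fun h3 => h (Subtype.ext h3)
  rcases he with rfl | rfl | rfl | rfl
  · simp only [Ed.rx.injEq, reduceCtorEq, or_false] at he'
    exact h2 he'
  · simp only [Ed.xz.injEq, reduceCtorEq, or_false, false_or] at he'
    exact h2 he'
  · simp only [Ed.zz.injEq, reduceCtorEq, or_false, false_or] at he'
    exact h2 he'
  · simp only [reduceCtorEq, false_or] at he'
    injection he' with h3 h4 h5
    exact h h5

/-- `J ⊕ J` embeds into every set of cardinality at least that of `J`. -/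
theorem exists_sum [Infinite J] (T : Set J) (hT : #J ≤ #↥T) : ∃ a b : J → J,
    Function.Injective a ∧ Function.Injective b ∧ (∀ k l, a k ≠ b l) ∧ (∀ k, a k ∈ T) ∧
      ∀ k, b k ∈ T := by
  obtain ⟨φ⟩ : Nonempty (J ⊕ J ↪ ↥T) := by
    rw [← Cardinal.le_def, Cardinal.mk_sum, Cardinal.lift_id,
      Cardinal.add_eq_self (Cardinal.aleph0_le_mk J)]
    exact hT
  exact ⟨fun k => (φ (Sum.inl k)).1, fun k => (φ (Sum.inr k)).1,
    fun k l h => Sum.inl_injective (φ.injective (Subtype.ext h)),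
    fun k l h => Sum.inr_injective (φ.injective (Subtype.ext h)),
    fun k l h => absurd (φ.injective (Subtype.ext h)) (by simp),
    fun k => (φ (Sum.inl k)).2, fun k => (φ (Sum.inr k)).2⟩

theorem link_w [Infinite J] (t : Λ) (S : Co J) :
    IsLinkable (D₀ J Λ) Set.univ (.w t S) (J₀ (.w t S)) := by
  obtain ⟨a, b, ha2, hb2, hab, ha1, hb1⟩ := exists_sum S.1ᶜ S.2
  refine ⟨fun e he => he.2,
    (Set.range fun k => pA t S (a k) k) ∪
      (Set.range (pB t S) ∪ Set.range fun i => pC t S (b i) i), ?_, ?_, ?_⟩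
  · rintro _ (⟨k, rfl⟩ | ⟨j, rfl⟩ | ⟨i, rfl⟩)
    · refine ⟨⟨[Ed.rx (a k), .xy (a k) k, .yy k, .yw k t S], ?_, ?_, rfl⟩, Set.subset_univ _⟩
      · simp [IsWalk, D₀, Ed.src, Ed.tgt]
      · simp [D₀, Ed.tgt]
    · refine ⟨⟨[Ed.rx j.1, .xz j.1, .zz j.1, .zw t S j], ?_, ?_, rfl⟩, Set.subset_univ _⟩
      · simp [IsWalk, D₀, Ed.src, Ed.tgt]
      · simp [D₀, Ed.tgt]
    · refine ⟨⟨[Ed.rx (b i), .xz (b i), .zz (b i), .zv (b i) t, .vu t S i, .uw t S i],
        ?_, ?_, rfl⟩, Set.subset_univ _⟩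
      · simp [IsWalk, D₀, Ed.src, Ed.tgt]
      · simp [D₀, Ed.tgt]
  · rintro _ (⟨k, rfl⟩ | ⟨j, rfl⟩ | ⟨i, rfl⟩) _ (⟨k', rfl⟩ | ⟨j', rfl⟩ | ⟨i', rfl⟩) hne
    · have hkk : k ≠ k' := fun h => hne (by rw [h])
      exact disj_AA t S _ _ _ _ (fun h => hkk (ha2 h)) hkk
    · exact disj_AB t S (a k) k j' fun h => ha1 k (h ▸ j'.2)
    · exact disj_AC t S _ _ _ _ (hab k i')
    · exact (disj_AB t S (a k') k' j fun h => ha1 k' (h ▸ j.2)).symm
    · exact disj_BB t S j j' fun h => hne (by rw [h])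
    · exact disj_BC t S j (b i') i' fun h => hb1 i' (h ▸ j.2)
    · exact (disj_AC t S _ _ _ _ (hab k' i)).symm
    · exact (disj_BC t S j' (b i) i fun h => hb1 i (h ▸ j'.2)).symm
    · have hkk : i ≠ i' := fun h => hne (by rw [h])
      exact disj_CC t S _ _ _ _ (fun h => hkk (hb2 h)) hkk
  · rintro e ⟨-, he⟩
    cases e with
    | yw k t' S' =>
      have h6 : Vx.w t' S' = Vx.w t S := he
      have h5 : t' = t ∧ S' = S := by simpa using h6
      obtain ⟨rfl, rfl⟩ := h5
      exact ⟨_, Or.inl ⟨k, rfl⟩, mem_pA.2 (by simp)⟩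
    | zw t' S' j =>
      have h6 : Vx.w t' S' = Vx.w t S := he
      have h5 : t' = t ∧ S' = S := by simpa using h6
      obtain ⟨rfl, rfl⟩ := h5
      exact ⟨_, Or.inr (Or.inl ⟨j, rfl⟩), mem_pB.2 (by simp)⟩
    | uw t' S' i =>
      have h6 : Vx.w t' S' = Vx.w t S := he
      have h5 : t' = t ∧ S' = S := by simpa using h6
      obtain ⟨rfl, rfl⟩ := h5
      exact ⟨_, Or.inr (Or.inr ⟨i, rfl⟩), mem_pC.2 (by simp)⟩
    | _ => exact absurd he (by simp [Ed.tgt])

/-- A vertex with only one ingoing edge in `I₀`. -/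
theorem link_one (y : Vx J Λ) (l : List (Ed J Λ)) (e : Ed J Λ) (hl : IsWalk (D₀ J Λ) .r l y)
    (hn : ((D₀ J Λ).root :: l.map (D₀ J Λ).tgt).Nodup) (he : e ∈ l)
    (hu : ∀ e' ∈ J₀ y, e' = e) : IsLinkable (D₀ J Λ) Set.univ y (J₀ y) := by
  refine ⟨fun e he => he.2, {{e | e ∈ l}}, ?_, ?_, ?_⟩
  · rintro _ rfl
    exact ⟨⟨l, hl, hn, rfl⟩, Set.subset_univ _⟩
  · exact Set.pairwiseDisjoint_singleton _ _
  · intro e' he'
    rw [hu e' he']
    exact ⟨_, rfl, he⟩

theorem link_y' (k : J) : IsLinkable (D₀ J Λ) Set.univ (.y' k) (J₀ (.y' k)) := by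
  refine ⟨fun e he => he.2, Set.range fun j : J => {e | e ∈ [Ed.rx j, .xy j k]}, ?_, ?_, ?_⟩
  · rintro _ ⟨j, rfl⟩
    refine ⟨⟨[.rx j, .xy j k], ?_, ?_, rfl⟩, Set.subset_univ _⟩
    · simp [IsWalk, D₀, Ed.src, Ed.tgt]
    · simp [D₀, Ed.tgt]
  · rintro _ ⟨j, rfl⟩ _ ⟨l, rfl⟩ hkl
    have hne : j ≠ l := fun h => hkl (by rw [h])
    refine Set.disjoint_left.2 fun e he he' => ?_
    simp only [id, Set.mem_ofPred_eq, List.mem_cons, List.not_mem_nil, or_false] at he he'
    rcases he with rfl | rfl <;> simp_all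
  · rintro e ⟨-, he⟩
    cases e with
    | xy j k' =>
      have : k' = k := by injection he
      subst this
      exact ⟨_, ⟨j, rfl⟩, by simp⟩
    | _ => exact absurd he (by simp [Ed.tgt])

theorem I₀_mem [Infinite J] : IsInG (D₀ J Λ) Set.univ (I₀ J Λ) := by
  refine ⟨J₀, ?_, ?_⟩
  · intro y hy
    cases y with
    | r => exact absurd rfl hy
    | x j =>
      refine link_one _ [.rx j] (.rx j) ?_ ?_ (by simp) ?_
      · simp [IsWalk, D₀, Ed.src, Ed.tgt]
      · simp [D₀, Ed.tgt]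
      · rintro e ⟨-, he⟩
        cases e with
        | rx j' =>
          have : j' = j := by injection he
          rw [this]
        | _ => exact absurd he (by simp [Ed.tgt])
    | y' k => exact link_y' k
    | z' j =>
      refine link_one _ [.rx j, .xz j] (.xz j) ?_ ?_ (by simp) ?_
      · simp [IsWalk, D₀, Ed.src, Ed.tgt]
      · simp [D₀, Ed.tgt]
      · rintro e ⟨-, he⟩
        cases e with
        | xz j' =>
          have : j' = j := by injection he
          rw [this]
        | _ => exact absurd he (by simp [Ed.tgt])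
    | y k =>
      refine link_one _ [.rx k, .xy k k, .yy k] (.yy k) ?_ ?_ (by simp) ?_
      · simp [IsWalk, D₀, Ed.src, Ed.tgt]
      · simp [D₀, Ed.tgt]
      · rintro e ⟨-, he⟩
        cases e with
        | yy j' =>
          have : j' = k := by injection he
          rw [this]
        | _ => exact absurd he (by simp [Ed.tgt])
    | z j =>
      refine link_one _ [.rx j, .xz j, .zz j] (.zz j) ?_ ?_ (by simp) ?_
      · simp [IsWalk, D₀, Ed.src, Ed.tgt]
      · simp [D₀, Ed.tgt]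
      · rintro e ⟨-, he⟩
        cases e with
        | zz j' =>
          have : j' = j := by injection he
          rw [this]
        | _ => exact absurd he (by simp [Ed.tgt])
    | v t => exact link_v t
    | u t S i =>
      refine link_one _ [.rx i, .xz i, .zz i, .zv i t, .vu t S i] (.vu t S i) ?_ ?_ (by simp) ?_
      · simp [IsWalk, D₀, Ed.src, Ed.tgt]
      · simp [D₀, Ed.tgt]
      · rintro e ⟨-, he⟩
        cases e with
        | vu t' S' i' =>
          have h6 : Vx.u t' S' i' = Vx.u t S i := he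
          have h5 : t' = t ∧ S' = S ∧ i' = i := by simpa using h6
          obtain ⟨rfl, rfl, rfl⟩ := h5
          rfl
        | _ => exact absurd he (by simp [Ed.tgt])
    | w t S => exact link_w t S
  · ext e
    simp only [Set.mem_iUnion, Set.mem_ofPred_eq]
    constructor
    · intro he
      refine ⟨e.tgt, (D₀ J Λ).no_in e, he, rfl⟩
    · rintro ⟨y, _, h⟩
      exact h.1

/-- A flame restricts to a linkable set at every vertex. -/
theorem flame_at {V : Type u} {E : Type v} {D : RootedDigraph V E} {F : Set E}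
    (hF : IsFlame D F) (y : V) (hy : y ≠ D.root) :
    ∃ P : Set (Set E), (∀ p ∈ P, IsRootPath D y p ∧ p ⊆ F) ∧ P.PairwiseDisjoint id ∧
      ∀ e ∈ F, D.tgt e = y → ∃ p ∈ P, e ∈ p := by
  obtain ⟨J, hJ, hU⟩ := hF
  obtain ⟨-, P, h1, h2, h3⟩ := hJ y hy
  refine ⟨P, h1, h2, fun e he hey => ?_⟩
  have h4 : e ∈ ⋃ y ∈ {y : V | y ≠ D.root}, J y := hU ▸ he
  simp only [Set.mem_iUnion, Set.mem_ofPred_eq] at h4
  obtain ⟨y', hy', h5⟩ := h4
  have h6 : D.tgt e = y' := (hJ y' hy').1 e h5
  have h7 : y' = y := h6.symm.trans hey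
  subst h7
  exact h3 h5

/-- `yy k` for `yw k t S` and `zz j` for `zw t S j` -/
def key : Ed J Λ → Ed J Λ
  | .yw k _ _ => .yy k
  | .zw _ _ j => .zz j.1
  | e => e

/-- The edges of `I₀` entering `y` which `F` misses. -/
abbrev Miss (F : Set (Ed J Λ)) (y : Vx J Λ) : Type u :=
  {e : Ed J Λ // e ∈ I₀ J Λ ∧ (D₀ J Λ).tgt e = y ∧ e ∉ F}

/-- If few of the edges `c i` entering `y` are missing from `F`, most of them are in `F`. -/
theorem many [Infinite J] (F : Set (Ed J Λ)) (y : Vx J Λ) (hm : ¬ #J ≤ #(Miss F y))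
    (c : J → Ed J Λ) (hc : Function.Injective c)
    (hcI : ∀ i, c i ∈ I₀ J Λ ∧ (D₀ J Λ).tgt (c i) = y) : #{i : J // c i ∈ F} = #J := by
  have h1 : #{i : J // c i ∉ F} ≤ #(Miss F y) := by
    refine Cardinal.mk_le_of_injective
      (f := fun i : {i : J // c i ∉ F} => (⟨c i.1, (hcI i.1).1, (hcI i.1).2, i.2⟩ : Miss F y)) ?_
    intro i i' h
    exact Subtype.ext (hc (congrArg Subtype.val h))
  have h2 : #{i : J // c i ∉ F} < #J := lt_of_le_of_lt h1 (not_le.1 hm)
  have h3 := Cardinal.mk_compl_of_infinite ({i : J | c i ∉ F}) h2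
  have h4 : ({i : J | c i ∉ F})ᶜ = {i : J | c i ∈ F} := by
    ext i
    simp
  rw [h4] at h3
  exact h3

/-- If few edges entering `v t` are missing, then `F` misses many of the edges `z j → v t`. -/
theorem co_of [Infinite J] (F : Set (Ed J Λ)) (hF : IsFlame (D₀ J Λ) F) (t : Λ)
    (hcon : ¬ #J ≤ #(Miss F (.v t))) : #J ≤ #↥({j | Ed.zv j t ∈ F} : Set J)ᶜ := by
  obtain ⟨P, hP, hPd, hPc⟩ := flame_at hF (Vx.v t) (by simp [D₀])
  have hK : #{k : J // Ed.yv k t ∈ F} = #J :=
    many F (.v t) hcon (fun k => Ed.yv k t) (fun a b h => by injection h)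
      fun k => ⟨fun j t => by simp, rfl⟩
  have hyv : ∀ k : {k : J // Ed.yv k t ∈ F}, ∃ j, ∃ p ∈ P,
      p = {e | e ∈ [Ed.rx j, .xy j k.1, .yy k.1, .yv k.1 t]} := by
    rintro ⟨k, hkF⟩
    obtain ⟨p, hp, hkp⟩ := hPc (.yv k t) hkF rfl
    obtain ⟨⟨l, hl, -, rfl⟩, -⟩ := hP p hp
    rcases walk_to_v hl with ⟨j, k', rfl⟩ | ⟨j, rfl⟩
    · have : k = k' := by simpa using hkp
      subst this
      exact ⟨j, _, hp, rfl⟩
    · exact absurd hkp (by simp)
  choose s p hpP hps using hyv
  have hzv : ∀ j, Ed.zv j t ∈ F → ∃ q ∈ P, q = {e | e ∈ [Ed.rx j, .xz j, .zz j, .zv j t]} := by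
    intro j hj
    obtain ⟨q, hq, hkq⟩ := hPc (.zv j t) hj rfl
    obtain ⟨⟨l, hl, -, rfl⟩, -⟩ := hP q hq
    rcases walk_to_v hl with ⟨j', k', rfl⟩ | ⟨j', rfl⟩
    · exact absurd hkq (by simp)
    · have : j = j' := by simpa using hkq
      subst this
      exact ⟨_, hq, rfl⟩
  -- `s` is injective
  have hs1 : Function.Injective s := by
    intro k k' hkk
    have h1 : Ed.rx (s k) ∈ p k := by rw [hps k]; simp
    have h2 : Ed.rx (s k) ∈ p k' := by rw [hps k', hkk]; simp
    have h3 : p k = p k' := by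
      by_contra hne
      exact Set.disjoint_left.1 (hPd (hpP k) (hpP k') hne) h1 h2
    have h4 : Ed.yv k.1 t ∈ p k' := by rw [← h3, hps k]; simp
    rw [hps k'] at h4
    exact Subtype.ext (by simpa using h4)
  -- `s` avoids the indices of the edges `z j → v t` of `F`
  have hs2 : ∀ k, Ed.zv (s k) t ∉ F := by
    intro k hk
    obtain ⟨q, hq, hqe⟩ := hzv _ hk
    have h1 : Ed.rx (s k) ∈ p k := by rw [hps k]; simp
    have h2 : Ed.rx (s k) ∈ q := by rw [hqe]; simp
    have h3 : p k = q := by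
      by_contra hne
      exact Set.disjoint_left.1 (hPd (hpP k) hq hne) h1 h2
    have h4 : Ed.yv k.1 t ∈ q := by rw [← h3, hps k]; simp
    rw [hqe] at h4
    simp at h4
  rw [← hK]
  refine Cardinal.mk_le_of_injective (f := fun k : {k : J // Ed.yv k t ∈ F} =>
    (⟨s k, hs2 k⟩ : ↥({j | Ed.zv j t ∈ F} : Set J)ᶜ)) ?_
  intro k k' h
  exact hs1 (congrArg Subtype.val h)

/-- Many edges entering `w t S` are missing if `S` contains all `j` with `zv j t ∈ F`. -/
theorem miss_w [Infinite J] (F : Set (Ed J Λ)) (hF : IsFlame (D₀ J Λ) F) (t : Λ) (S : Co J)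
    (hS : ∀ j, Ed.zv j t ∈ F → j ∈ S.1) : #J ≤ #(Miss F (.w t S)) := by
  by_contra hcon
  obtain ⟨Q, hQ, hQd, hQc⟩ := flame_at hF (Vx.w t S) (by simp [D₀])
  have hL : #{i : J // Ed.uw t S i ∈ F} = #J :=
    many F (.w t S) hcon (Ed.uw t S) (fun a b h => by injection h)
      fun k => ⟨fun j t => by simp, rfl⟩
  have huw : ∀ i : {i : J // Ed.uw t S i ∈ F}, ∃ q ∈ Q, ∃ m : Miss F (.w t S),
      Ed.uw t S i.1 ∈ q ∧ (∀ i', Ed.uw t S i' ∈ q → i' = i.1) ∧ key m.1 ∈ q := by
    rintro ⟨i, hiF⟩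
    obtain ⟨q, hq, hiq⟩ := hQc (.uw t S i) hiF rfl
    obtain ⟨⟨l, hl, -, rfl⟩, hqF⟩ := hQ q hq
    rcases walk_to_w hl with ⟨j, k, rfl⟩ | ⟨j, rfl⟩ | ⟨j, k, i', rfl⟩ | ⟨j, i', rfl⟩
    · exact absurd hiq (by simp)
    · exact absurd hiq (by simp)
    · -- the path through `y k`
      have hi : i = i' := by simpa using hiq
      subst hi
      have hmiss : Ed.yw k t S ∉ F := by
        intro hkF
        obtain ⟨q', hq', hvq'⟩ := hQc (.yw k t S) hkF rfl
        have hne : {e | e ∈ [Ed.rx j, .xy j k, .yy k, .yv k t, .vu t S i, .uw t S i]} ≠ q' := by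
          rintro rfl
          exact absurd hvq' (by simp)
        have hd := Set.disjoint_left.1 (hQd hq hq' hne)
        obtain ⟨⟨l', hl', -, rfl⟩, -⟩ := hQ q' hq'
        have hyy : Ed.yy k ∈ l' := by
          rcases walk_to_w hl' with ⟨j', k', rfl⟩ | ⟨j', rfl⟩ | ⟨j', k', i', rfl⟩ | ⟨j', i', rfl⟩
          · have : k = k' := by simpa using hvq'
            subst this
            simp
          · exact absurd hvq' (by simp)
          · exact absurd hvq' (by simp)
          · exact absurd hvq' (by simp)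
        exact hd (show Ed.yy k ∈ _ by simp) hyy
      refine ⟨_, hq, ⟨.yw k t S, fun j t => by simp, rfl, hmiss⟩, by simp, ?_, ?_⟩
      · intro i' hi'
        simpa using hi'
      · show Ed.yy k ∈ _
        simp
    · -- the path through `z j`
      have hi : i = i' := by simpa using hiq
      subst hi
      have hjF : Ed.zv j t ∈ F := hqF (by simp)
      have hjS : j ∈ S.1 := hS j hjF
      have hmiss : Ed.zw t S ⟨j, hjS⟩ ∉ F := by
        intro hkF
        obtain ⟨q', hq', hvq'⟩ := hQc (.zw t S ⟨j, hjS⟩) hkF rfl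
        have hne : {e | e ∈ [Ed.rx j, .xz j, .zz j, .zv j t, .vu t S i, .uw t S i]} ≠ q' := by
          rintro rfl
          exact absurd hvq' (by simp)
        have hd := Set.disjoint_left.1 (hQd hq hq' hne)
        obtain ⟨⟨l', hl', -, rfl⟩, -⟩ := hQ q' hq'
        have hzz : Ed.zz j ∈ l' := by
          rcases walk_to_w hl' with ⟨j', k', rfl⟩ | ⟨j', rfl⟩ | ⟨j', k', i', rfl⟩ | ⟨j', i', rfl⟩
          · exact absurd hvq' (by simp)
          · have h5 : Ed.zw t S ⟨j, hjS⟩ = Ed.zw t S j' := by simpa using hvq'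
            injection h5 with h6 h7 h9
            have h8 : j = j'.1 := congrArg Subtype.val h9
            simp [h8]
          · exact absurd hvq' (by simp)
          · exact absurd hvq' (by simp)
        exact hd (show Ed.zz j ∈ _ by simp) hzz
      refine ⟨_, hq, ⟨.zw t S ⟨j, hjS⟩, fun j t => by simp, rfl, hmiss⟩, by simp, ?_, ?_⟩
      · intro i' hi'
        simpa using hi'
      · show Ed.zz j ∈ _
        simp
  choose q hqQ m hq1 hq2 hq3 using huw
  refine hcon ?_
  rw [← hL]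
  refine Cardinal.mk_le_of_injective (f := m) ?_
  intro i i' h
  have h1 : key (m i).1 ∈ q i' := by rw [h]; exact hq3 i'
  have h2 : q i = q i' := by
    by_contra hne
    exact Set.disjoint_left.1 (hQd (hqQ i) (hqQ i') hne) (hq3 i) h1
  exact Subtype.ext (hq2 i' i.1 (by rw [← h2]; exact hq1 i))

theorem far [Infinite J] (F : Set (Ed J Λ)) (hF : IsFlame (D₀ J Λ) F) :
    (∀ t, #J ≤ #(Miss F (.v t))) ∨ 2 ^ #J ≤ #{y : Vx J Λ // #J ≤ #(Miss F y)} := by
  by_cases hall : ∀ t, #J ≤ #(Miss F (.v t))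
  · exact Or.inl hall
  right
  obtain ⟨t, hcon⟩ := not_forall.1 hall
  have hco := co_of F hF t hcon
  obtain ⟨a, b, ha, hb, hab, haT, hbT⟩ := exists_sum _ hco
  -- the critical vertices
  have hS : ∀ A : Set J, #J ≤ #↥({j | (∀ k, j ≠ a k) ∧ ∀ k ∈ A, j ≠ b k} : Set J)ᶜ := by
    intro A
    refine Cardinal.mk_le_of_injective (f := fun k : J =>
      (⟨a k, fun h => h.1 k rfl⟩ :
        ↥({j | (∀ k, j ≠ a k) ∧ ∀ k ∈ A, j ≠ b k} : Set J)ᶜ)) ?_
    intro k k' h
    exact ha (congrArg Subtype.val h)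
  have hw : ∀ A : Set J, #J ≤ #(Miss F (.w t ⟨_, hS A⟩)) := by
    intro A
    refine miss_w F hF t _ ?_
    intro j hj
    exact ⟨fun k hk => haT k (hk ▸ hj), fun k _ hk => hbT k (hk ▸ hj)⟩
  rw [← Cardinal.mk_set]
  refine Cardinal.mk_le_of_injective (f := fun A : Set J =>
    (⟨.w t ⟨_, hS A⟩, hw A⟩ : {y : Vx J Λ // #J ≤ #(Miss F y)})) ?_
  intro A B h
  have h1 : Vx.w t ⟨_, hS A⟩ = Vx.w t ⟨_, hS B⟩ := congrArg Subtype.val h
  have h2 : (⟨_, hS A⟩ : Co J) = ⟨_, hS B⟩ := by injection h1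
  have h3 : {j | (∀ k, j ≠ a k) ∧ ∀ k ∈ A, j ≠ b k} = {j | (∀ k, j ≠ a k) ∧ ∀ k ∈ B, j ≠ b k} :=
    congrArg Subtype.val h2
  have hmem : ∀ (C : Set J) (k : J),
      b k ∈ {j | (∀ k, j ≠ a k) ∧ ∀ k ∈ C, j ≠ b k} ↔ k ∉ C := by
    intro C k
    constructor
    · intro h hk
      exact h.2 k hk rfl
    · intro hk
      exact ⟨fun l hl => hab l k hl.symm, fun l hl h => hk (hb h ▸ hl)⟩
  ext k
  have h4 := hmem A k
  rw [h3, hmem B k] at h4
  exact (not_iff_not.1 h4).symm

/-- **Every flame is far from `I`.** For all cardinals `κ = #J ≥ ℵ₀` and `#Λ` there are a rooted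
digraph `D` without parallel edges, all of whose in-degrees are at most `κ` and all of whose
directed walks have at most six edges (so `D` is acyclic and has no backward-infinite path),
distinct vertices `v t` (`t ∈ Λ`) and a set `I ∈ 𝒢(D)` containing every edge that enters none of
the `v t`, such that every flame `F` of `D` misses at least `κ` of the edges of `I` entering `v t`
for every `t`, or there are at least `2 ^ κ` vertices `y` such that `F` misses at least `κ` of the
edges of `I` entering `y`. -/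
theorem result (J Λ : Type u) [Infinite J] : ∃ (V E : Type u) (D : RootedDigraph V E),
    (∀ e e', D.src e = D.src e' → D.tgt e = D.tgt e' → e = e') ∧
    (∀ y, #{e : E // D.tgt e = y} ≤ #J) ∧
    (∀ x l y, IsWalk D x l y → l.length ≤ 6) ∧ IsAcyclic D ∧ NoBackwardInfinite D ∧
    ∃ (v : Λ → V) (I : Set E), Function.Injective v ∧ IsInG D Set.univ I ∧
      (∀ e, (∀ t, D.tgt e ≠ v t) → e ∈ I) ∧
      ∀ F, IsFlame D F → (∀ t, #J ≤ #{e : E // e ∈ I ∧ D.tgt e = v t ∧ e ∉ F}) ∨
        2 ^ #J ≤ #{y : V // #J ≤ #{e : E // e ∈ I ∧ D.tgt e = y ∧ e ∉ F}} :=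
  ⟨Vx J Λ, Ed J Λ, D₀ J Λ, D₀_simple, indegree, walk_length, D₀_acyclic, D₀_noBackward, .v,
    I₀ J Λ, fun a b h => by injection h, I₀_mem,
    fun e he j t h => he t (by rw [h]; rfl), far⟩

end Pool.Agent.Results.MP_6e5fe0_co.FarFromFlames
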